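import Pool.Agent.helper94.PT.Final

/-!
MP_c8567d_co: the pair-transversal function satisfies `f k r ~ k / √r` as `r → ∞`, uniformly for
`k ≥ C r`; in particular `limsup_k f k r / k ≤ (1 + ε) liminf_k f k r / k` for all large `r`.

`HasBound k r m`: every family (finite or infinite) of sets with `k` elements, any at most `r`
members of which are met by some pair, has a transversal with at most `m` elements.
`f k r`: the least such `m`.
-/

namespace Pool.Agent.Results.MP_c8567d_co.AsymptoticInR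

open Pool.Agent.helper94.PT Filter

theorem result : ∀ ε : ℝ, 0 < ε → ∃ C : ℝ, ∀ r : ℕ, C ≤ r →
    (∀ k : ℕ, C * r ≤ k → (∃ m, HasBound k r m) ∧ (k : ℝ) / √r ≤ f k r ∧
      (f k r : ℝ) ≤ (1 + ε) * (k / √r)) ∧
    1 / √r ≤ liminf (fun k : ℕ => (f k r : ℝ) / k) atTop ∧
    limsup (fun k : ℕ => (f k r : ℝ) / k) atTop ≤ (1 + ε) / √r := by
  intro ε hε
  obtain ⟨C, hC⟩ := bounds hε
  obtain ⟨R, hR⟩ := limits hε
  refine ⟨max (max C R) 1, fun r hr => ⟨fun k hk => ?_, hR r ?_⟩⟩
  · have h1 : C ≤ r := (le_max_left _ _).trans ((le_max_left _ _).trans hr)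
    have hr1 : (1 : ℝ) ≤ r := (le_max_right _ _).trans hr
    have h2 : C * r ≤ max (max C (R : ℝ)) 1 * r :=
      mul_le_mul_of_nonneg_right ((le_max_left _ _).trans (le_max_left _ _)) (by linarith)
    exact hC r k h1 (h2.trans hk)
  · have h1 : (R : ℝ) ≤ r := (le_max_right _ _).trans ((le_max_left _ _).trans hr)
    exact_mod_cast h1

end Pool.Agent.Results.MP_c8567d_co.AsymptoticInR
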